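import Pool.Agent.Y303.EJ.W

/-!
# Project EJ: weak-strong uniqueness
-/

open Set Filter Topology MeasureTheory Metric

set_option autoImplicit false

namespace Pool.Agent.Y284.EJ

open Pool.Agent.Y5 (E3)
open Pool.Agent.Y303.SK
open Pool.Agent.Y303.EJ
open Pool.Agent.Y500.SK (inner_toLp ipr_comm lap dirf_eq lap_memLp dvg_zero cpt_of_zero)

theorem inner_int {v w : E3 → E3} (hv : MemLp v 2 volume) (hw : MemLp w 2 volume) :
    Integrable (fun x => (inner ℝ (v x) (w x) : ℝ)) := by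
  have h := L2.integrable_inner (𝕜 := ℝ) (hv.toLp v) (hw.toLp w)
  refine h.congr ?_
  filter_upwards [hv.coeFn_toLp, hw.coeFn_toLp] with x h1 h2
  rw [h1, h2]

theorem ipr_self_nonneg (v : E3 → E3) : 0 ≤ ipr v v :=
  integral_nonneg fun _ => real_inner_self_nonneg

theorem dirf_self_nonneg (v : E3 → E3) : 0 ≤ dirf v v :=
  integral_nonneg fun _ => Finset.sum_nonneg fun _ _ => real_inner_self_nonneg

theorem gg_nonneg (G : E3 → Fin 3 → E3) : 0 ≤ gg G :=
  integral_nonneg fun _ => Finset.sum_nonneg fun _ _ => sq_nonneg _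

theorem ipr_sub_left {v w f : E3 → E3} (hv : MemLp v 2 volume) (hw : MemLp w 2 volume)
    (hf : MemLp f 2 volume) : ipr (fun x => v x - w x) f = ipr v f - ipr w f := by
  unfold ipr
  rw [← integral_sub (inner_int hv hf) (inner_int hw hf)]
  refine integral_congr_ae (Eventually.of_forall fun x => ?_)
  simp only [inner_sub_left]

theorem ipr_sub_self {v w : E3 → E3} (hv : MemLp v 2 volume) (hw : MemLp w 2 volume) :
    ipr (fun x => v x - w x) (fun x => v x - w x) = ipr v v - 2 * ipr w v + ipr w w := by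
  have hA : Integrable (fun x => (inner ℝ (v x) (v x) : ℝ) - 2 * inner ℝ (w x) (v x)) :=
    (inner_int hv hv).sub ((inner_int hw hv).const_mul 2)
  unfold ipr
  rw [← integral_const_mul, ← integral_sub (inner_int hv hv) ((inner_int hw hv).const_mul 2),
    ← integral_add hA (inner_int hw hw)]
  refine integral_congr_ae (Eventually.of_forall fun x => ?_)
  simp only [inner_sub_left, inner_sub_right]
  rw [real_inner_comm (w x) (v x)]
  ring

theorem ipr_sub_le {v w : E3 → E3} (hv : MemLp v 2 volume) (hw : MemLp w 2 volume) :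
    ipr (fun x => v x - w x) (fun x => v x - w x) ≤ 2 * ipr v v + 2 * ipr w w := by
  have h1 := ipr_sub_self hv hw
  have h2 : 0 ≤ ∫ x, (inner ℝ (v x + w x) (v x + w x) : ℝ) :=
    integral_nonneg fun _ => real_inner_self_nonneg
  have h3 : ∫ x, (inner ℝ (v x + w x) (v x + w x) : ℝ) = ipr v v + 2 * ipr w v + ipr w w := by
    have hA : Integrable (fun x => (inner ℝ (v x) (v x) : ℝ) + 2 * inner ℝ (w x) (v x)) :=
      (inner_int hv hv).add ((inner_int hw hv).const_mul 2)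
    unfold ipr
    rw [← integral_const_mul, ← integral_add (inner_int hv hv) ((inner_int hw hv).const_mul 2),
      ← integral_add hA (inner_int hw hw)]
    refine integral_congr_ae (Eventually.of_forall fun x => ?_)
    simp only [inner_add_left, inner_add_right]
    rw [real_inner_comm (w x) (v x)]
    ring
  rw [h3] at h2
  linarith

theorem ae_of_ipr {v w : E3 → E3} (hv : MemLp v 2 volume) (hw : MemLp w 2 volume)
    (h : ipr (fun x => v x - w x) (fun x => v x - w x) = 0) : v =ᵐ[volume] w := by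
  have h1 := inner_int (hv.sub hw) (hv.sub hw)
  unfold ipr at h
  have h2 := (integral_eq_zero_iff_of_nonneg (f := fun x => (inner ℝ (v x - w x) (v x - w x) : ℝ))
    (fun _ => real_inner_self_nonneg) h1).1 h
  filter_upwards [h2] with x hx
  have h3 : (inner ℝ (v x - w x) (v x - w x) : ℝ) = 0 := hx
  exact sub_eq_zero.1 (inner_self_eq_zero.1 h3)

theorem ipr_congr_left {v v' f : E3 → E3} (h : v =ᵐ[volume] v') : ipr v f = ipr v' f := by
  unfold ipr
  refine integral_congr_ae ?_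
  filter_upwards [h] with x hx
  rw [hx]

theorem inH_cs {Ω : Set E3} {w : E3 → E3} (h : CS Ω w) : InH Ω w := by
  refine ⟨Pool.Agent.Y500.SK.CS.memLp h, fun ε hε => ⟨w, h, ?_⟩⟩
  simpa using hε

theorem t_W7 (h5 : S_W5) (h6 : S_W6) (hg : S_GR) (hwc : S_WC) : S_W7 := by
  intro Ω ν ι e σ s T T' u v G hΩ hb hν hS hT' hTT hL h0 t₁ ht₁ ht₁T
  have hco := hS.co
  have hT : 0 < T := hT'.trans_le hTT
  have hsub : ∀ τ ∈ Icc 0 t₁, τ ∈ Icc 0 T' ∧ τ ∈ Ico 0 T := fun τ hτ =>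
    ⟨⟨hτ.1, hτ.2.trans ht₁.2⟩, ⟨hτ.1, hτ.2.trans_lt ht₁T⟩⟩
  have hu2 : ∀ τ ∈ Icc 0 t₁, MemLp (u τ) 2 volume := fun τ hτ => (hS.sol.inH τ (hsub τ hτ).2).1
  have hv2 : ∀ τ ∈ Icc 0 t₁, MemLp (v τ) 2 volume := fun τ hτ => (hL.inH τ (hsub τ hτ).1).1
  have hz : (0 : ℝ) ∈ Icc 0 t₁ := ⟨le_rfl, ht₁.1⟩
  -- energy of the strong solution
  obtain ⟨E, hE⟩ : ∃ E : ℝ → ℝ, E = fun τ => ipr (u τ) (u τ) := ⟨_, rfl⟩
  obtain ⟨d, hd⟩ : ∃ d : ℝ → ℝ, d = fun τ => dirf (u τ) (u τ) := ⟨_, rfl⟩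
  have hd0 : ∀ τ, 0 ≤ d τ := fun τ => by rw [hd]; exact dirf_self_nonneg _
  have hEc : ContinuousOn E (Ico 0 T) := fun τ hτ => by
    rw [hE]; exact (hS.en τ hτ).continuousWithinAt
  have hEd : ∀ τ ∈ Ioo 0 T, HasDerivAt E (-(2 * ν * d τ)) τ := fun τ hτ => by
    have := (hS.en τ ⟨hτ.1.le, hτ.2⟩).hasDerivAt (Ico_mem_nhds hτ.1 hτ.2)
    rw [hE, hd]
    refine this.congr_deriv ?_
    ring
  have hdint : IntegrableOn d (Ioc 0 t₁) := by
    have h1 := intervalIntegral.integrableOn_deriv_of_nonneg (g := fun t => -((2 * ν)⁻¹ * E t))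
      (g' := d) (a := 0) (b := t₁) ?_ ?_ ?_
    · exact h1
    · exact ((hEc.mono fun τ hτ => (hsub τ hτ).2).const_smul (2 * ν)⁻¹).neg
    · intro t ht
      have h2 := ((hEd t ⟨ht.1, ht.2.trans ht₁T⟩).const_mul (2 * ν)⁻¹).neg
      refine h2.congr_deriv ?_
      field_simp
    · intro t _
      exact hd0 t
  have hdI : IntervalIntegrable d volume 0 t₁ :=
    (intervalIntegrable_iff_integrableOn_Ioc_of_le ht₁.1).2 hdint
  have hEeq : ∀ τ ∈ Icc 0 t₁, E τ = E 0 - ∫ r in (0 : ℝ)..τ, 2 * ν * d r := by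
    intro τ hτ
    have h3 := intervalIntegral.integral_eq_sub_of_hasDerivAt_of_le (f := E)
      (f' := fun τ => -(2 * ν * d τ)) hτ.1
      (hEc.mono fun r hr => (hsub r ⟨hr.1, hr.2.trans hτ.2⟩).2)
      (fun x hx => hEd x ⟨hx.1, hx.2.trans_le (hτ.2.trans ht₁T.le)⟩) (by
        have : IntervalIntegrable d volume 0 τ := hdI.mono_set (by
          rw [uIcc_of_le hτ.1, uIcc_of_le ht₁.1]; exact Icc_subset_Icc_right hτ.2)
        exact (this.const_mul (2 * ν)).neg)
    rw [intervalIntegral.integral_neg] at h3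
    linarith
  -- dissipation of the weak solution
  have hGi : IntervalIntegrable (fun τ => gg (G τ)) volume 0 t₁ := by
    rw [intervalIntegrable_iff_integrableOn_Ioo_of_le ht₁.1]
    exact hL.diss.mono_set (Ioo_subset_Ioo_right ht₁.2)
  -- mixed term
  have h5' := fun τ (hτ : τ ∈ Icc 0 t₁) =>
    h5 Ω ν ι e σ s T T' u v G hΩ hb hν hS hT' hTT hL τ (hsub τ hτ).1 (hsub τ hτ).2.2
  obtain ⟨m, hm⟩ : ∃ m : ℝ → ℝ, m = fun τ => 2 * ν * gf (G τ) (u τ) + ipr (conv (u τ)) (v τ) +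
    av (v τ) (G τ) (u τ) := ⟨_, rfl⟩
  have hmI : IntervalIntegrable m volume 0 t₁ := by
    rw [hm]; exact (h5' t₁ ⟨ht₁.1, le_rfl⟩).1
  have hmeq : ∀ τ ∈ Icc 0 t₁, ipr (u τ) (v τ) = ipr (u 0) (v 0) - ∫ r in (0 : ℝ)..τ, m r := by
    intro τ hτ
    rw [hm]; exact (h5' τ hτ).2
  -- initial values
  have hv0 : ipr (v 0) (v 0) = E 0 := by
    rw [hE]
    simp only
    rw [ipr_congr_left h0, ipr_comm, ipr_congr_left h0]
  have huv0 : ipr (u 0) (v 0) = E 0 := by
    rw [hE]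
    simp only
    rw [ipr_comm, ipr_congr_left h0]
  -- the difference
  obtain ⟨g, hgd⟩ : ∃ g : ℝ → ℝ, g = fun τ => ipr (fun x => v τ x - u τ x)
    (fun x => v τ x - u τ x) := ⟨_, rfl⟩
  have hg0 : ∀ τ, 0 ≤ g τ := fun τ => by rw [hgd]; exact ipr_self_nonneg _
  have hgeq : ∀ τ ∈ Icc 0 t₁, g τ = ipr (v τ) (v τ) - 2 * ipr (u τ) (v τ) + E τ := fun τ hτ => by
    rw [hgd, hE]; exact ipr_sub_self (hv2 τ hτ) (hu2 τ hτ)
  have hve : ∀ τ ∈ Icc 0 t₁, ipr (v τ) (v τ) ≤ E 0 - ∫ r in (0 : ℝ)..τ, 2 * ν * gg (G r) := by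
    intro τ hτ
    have := hL.energy τ (hsub τ hτ).1
    rw [intervalIntegral.integral_const_mul]
    linarith
  have hve1 : ∀ τ ∈ Icc 0 t₁, ipr (v τ) (v τ) ≤ E 0 := by
    intro τ hτ
    have h1 := hve τ hτ
    have h2 : 0 ≤ ∫ r in (0 : ℝ)..τ, 2 * ν * gg (G r) :=
      intervalIntegral.integral_nonneg hτ.1 fun r _ => by
        have := gg_nonneg (G r); positivity
    linarith
  have hue1 : ∀ τ ∈ Icc 0 t₁, E τ ≤ E 0 := by
    intro τ hτ
    have h1 := hEeq τ hτ
    have h2 : 0 ≤ ∫ r in (0 : ℝ)..τ, 2 * ν * d r :=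
      intervalIntegral.integral_nonneg hτ.1 fun r _ => by
        have := hd0 r; positivity
    linarith
  have hgM : ∀ τ ∈ Icc 0 t₁, g τ ≤ 4 * E 0 := by
    intro τ hτ
    have h1 := ipr_sub_le (hv2 τ hτ) (hu2 τ hτ)
    have h2 := hve1 τ hτ
    have h3 := hue1 τ hτ
    rw [hgd]
    simp only
    have h4 : ipr (u τ) (u τ) = E τ := by rw [hE]
    linarith
  -- measurability
  have hcont : ∀ i, ContinuousOn (fun τ => ipr (v τ) (e i)) (Icc 0 t₁) := fun i =>
    (hL.cont (e i) (inH_cs (hS.skew.field i))).mono fun τ hτ => (hsub τ hτ).1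
  have hvm : AEStronglyMeasurable (fun τ => ipr (v τ) (v τ)) (volume.restrict (Icc 0 t₁)) := by
    have hP := (hwc Ω ι e σ s hΩ hb hS.skew hS.co).1
    refine aestronglyMeasurable_of_tendsto_ae (atTop : Filter (Finset ι))
      (f := fun F τ => ∑ i ∈ F, ipr (v τ) (e i) ^ 2) (fun F => ?_) ?_
    · refine ContinuousOn.aestronglyMeasurable ?_ measurableSet_Icc
      exact continuousOn_finset_sum _ fun i _ => (hcont i).pow 2
    · rw [ae_restrict_iff' measurableSet_Icc]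
      refine Eventually.of_forall fun τ hτ => ?_
      obtain ⟨h1, h2⟩ := hP (v τ) (hL.inH τ (hsub τ hτ).1)
      rw [h2]
      exact h1.hasSum
  have hgI : IntervalIntegrable g volume 0 t₁ := by
    have h1 : AEStronglyMeasurable g (volume.restrict (Icc 0 t₁)) := by
      have h2 : AEStronglyMeasurable (fun τ => ipr (v τ) (v τ) - 2 * (ipr (u 0) (v 0)
          - ∫ r in (0 : ℝ)..τ, m r) + E τ) (volume.restrict (Icc 0 t₁)) := by
        refine (hvm.sub ?_).add ?_
        · refine ContinuousOn.aestronglyMeasurable ?_ measurableSet_Icc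
          refine continuousOn_const.mul (continuousOn_const.sub ?_)
          have := intervalIntegral.continuousOn_primitive_interval' hmI left_mem_uIcc
          rwa [uIcc_of_le ht₁.1] at this
        · exact ContinuousOn.aestronglyMeasurable (hEc.mono fun τ hτ => (hsub τ hτ).2)
            measurableSet_Icc
      refine h2.congr ?_
      filter_upwards [ae_restrict_mem measurableSet_Icc] with τ hτ
      rw [hgeq τ hτ, hmeq τ hτ]
    rw [intervalIntegrable_iff_integrableOn_Icc_of_le ht₁.1]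
    refine Integrable.of_bound h1 (4 * E 0) ?_
    filter_upwards [ae_restrict_mem measurableSet_Icc] with τ hτ
    rw [Real.norm_eq_abs, abs_of_nonneg (hg0 τ)]
    exact hgM τ hτ
  -- the inequality
  obtain ⟨K, hK⟩ := hS.der 1 t₁ ht₁T
  have hK0 : 0 ≤ K := (norm_nonneg _).trans (hK 0 hz 0)
  have hineq : ∀ τ ∈ Icc 0 t₁, g τ ≤ 2 * K * ∫ r in (0 : ℝ)..τ, g r := by
    intro τ hτ
    have hsubτ : uIcc 0 τ ⊆ uIcc 0 t₁ := by
      rw [uIcc_of_le hτ.1, uIcc_of_le ht₁.1]; exact Icc_subset_Icc_right hτ.2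
    have i1 := (hGi.mono_set hsubτ).const_mul (2 * ν)
    have i2 := (hdI.mono_set hsubτ).const_mul (2 * ν)
    have i3 := (hmI.mono_set hsubτ).const_mul 2
    have i4 := (hgI.mono_set hsubτ).const_mul (2 * K)
    have h1 : g τ ≤ ∫ r in (0 : ℝ)..τ, (2 * m r - 2 * ν * gg (G r) - 2 * ν * d r) := by
      rw [intervalIntegral.integral_sub (i3.sub i1) i2, intervalIntegral.integral_sub i3 i1,
        intervalIntegral.integral_const_mul 2]
      have := hgeq τ hτ
      have := hmeq τ hτ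
      have := hEeq τ hτ
      have := hve τ hτ
      linarith
    refine h1.trans ?_
    rw [← intervalIntegral.integral_const_mul]
    refine intervalIntegral.integral_mono_ae_restrict hτ.1 ((i3.sub i1).sub i2) i4 ?_
    have hae : ∀ᵐ r ∂(volume.restrict (Icc 0 τ)), r ∈ Ioo 0 τ := by
      rw [← restrict_Ioo_eq_restrict_Icc]
      exact ae_restrict_mem measurableSet_Ioo
    have hgr : ∀ᵐ r ∂(volume.restrict (Icc 0 τ)), H1w Ω (v r) (G r) := by
      rw [← restrict_Ioo_eq_restrict_Icc]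
      exact ae_restrict_of_ae_restrict_of_subset
        (Ioo_subset_Ioo_right (hτ.2.trans ht₁.2)) hL.grad
    filter_upwards [hae, hgr] with r hr hH
    have hr1 : r ∈ Icc 0 t₁ := ⟨hr.1.le, hr.2.le.trans hτ.2⟩
    have hrT := (hsub r hr1).2
    have hsm := hS.smooth r hrT
    have h2 := h6 Ω (v r) (u r) (G r) ν K hΩ hb hν hH hsm (hS.sol.zero r hrT)
      (dvg_zero (hsm.of_le (by
        change ((1 : ℕ∞) : WithTop ℕ∞) ≤ ((⊤ : ℕ∞) : WithTop ℕ∞)
        exact_mod_cast le_top)) (hS.sol.zero r hrT) (hS.sol.dv r hrT))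
      (fun x => by
        have := hK r hr1 x
        rwa [norm_iteratedFDeriv_one] at this)
    rw [hm, hd, hgd]
    simp only
    linarith
  have hfin := hg t₁ (2 * K) (4 * E 0) g ht₁.1 (by positivity) hgI
    (fun τ hτ => ⟨hg0 τ, hgM τ hτ⟩) hineq t₁ ⟨ht₁.1, le_rfl⟩
  rw [hgd] at hfin
  exact ae_of_ipr (hv2 t₁ ⟨ht₁.1, le_rfl⟩) (hu2 t₁ ⟨ht₁.1, le_rfl⟩) hfin

end Pool.Agent.Y284.EJ
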